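import Pool.Agent.K3h44.SQ.Stm2

/-!
# FLD3: an extension with square roots of finitely many numbers (helper79 for helper44)
-/

set_option autoImplicit false

namespace Pool.Agent.K3h79.SQ

open NumberField

theorem t_FLD3 : Pool.Agent.K3h44.SQ.S_FLD3 := by
  intro K _ _ T
  choose g hg using fun η : K =>
    IsAlgClosed.exists_pow_nat_eq (algebraMap K (AlgebraicClosure K) η) (n := 2) two_pos
  let S : Set (AlgebraicClosure K) := g '' (T : Set K)
  let L : IntermediateField K (AlgebraicClosure K) := IntermediateField.adjoin K S
  have hS : Finite S := (T.finite_toSet.image g).to_subtype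
  have hfd : FiniteDimensional K L :=
    IntermediateField.finiteDimensional_adjoin fun x _ => Algebra.IsIntegral.isIntegral x
  have hL : NumberField L := NumberField.of_module_finite K L
  refine ⟨L, inferInstance, hL, algebraMap K L, fun η hη => ?_⟩
  refine ⟨⟨g η, IntermediateField.subset_adjoin K S ⟨η, hη, rfl⟩⟩, ?_⟩
  apply Subtype.ext
  exact hg η

end Pool.Agent.K3h79.SQ

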