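import Mathlib

/-!
# The nearest cube root (helper79 for helper64/helper44)
-/

set_option autoImplicit false

namespace Pool.Agent.K3h79.SQ

theorem aux {a b e z : ℂ} {m : ℝ} (hm : 0 < m) (h1 : ‖z - a‖ ≤ ‖z - b‖) (h2 : ‖z - a‖ ≤ ‖z - e‖)
    (hab : m ≤ ‖a - b‖) (hae : m ≤ ‖a - e‖) :
    ‖z - a‖ * (m ^ 2 / 4) ≤ ‖(z - a) * (z - b) * (z - e)‖ := by
  have h3 : m / 2 ≤ ‖z - b‖ := by
    have : ‖a - b‖ ≤ ‖z - b‖ + ‖z - a‖ := by
      have := norm_sub_le (z - b) (z - a)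
      rwa [show z - b - (z - a) = a - b by ring] at this
    linarith
  have h4 : m / 2 ≤ ‖z - e‖ := by
    have : ‖a - e‖ ≤ ‖z - e‖ + ‖z - a‖ := by
      have := norm_sub_le (z - e) (z - a)
      rwa [show z - e - (z - a) = a - e by ring] at this
    linarith
  rw [norm_mul, norm_mul, mul_assoc]
  apply mul_le_mul_of_nonneg_left _ (norm_nonneg _)
  have h5 : m / 2 * (m / 2) ≤ ‖z - b‖ * ‖z - e‖ :=
    mul_le_mul h3 h4 (by positivity) (norm_nonneg _)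
  linarith [h5]

/-- There is a cube root `τ` of `c` with `|z - τ| ≤ C |1 - z ^ 3 / c|`. -/
theorem near_root (c : ℂ) (hc : c ≠ 0) : ∃ C : ℝ, 0 < C ∧ ∀ z : ℂ, ∃ τ : ℂ, τ ^ 3 = c ∧
    ‖z - τ‖ ≤ C * ‖1 - c⁻¹ * z ^ 3‖ := by
  obtain ⟨t, ht⟩ := IsAlgClosed.exists_pow_nat_eq c (n := 3) (by norm_num)
  obtain ⟨u, hu⟩ := IsAlgClosed.exists_pow_nat_eq (-3 : ℂ) (n := 2) (by norm_num)
  set w : ℂ := (-1 + u) / 2 with hw
  have hw1 : w ^ 2 + w + 1 = 0 := by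
    rw [hw]
    linear_combination (1 / 4 : ℂ) * hu
  have hw3 : w ^ 3 = 1 := by linear_combination (w - 1) * hw1
  have ht0 : t ≠ 0 := by
    rintro rfl
    exact hc (by rw [← ht]; norm_num)
  have hw0 : w ≠ 0 := by
    intro h
    rw [h] at hw1
    norm_num at hw1
  have hwn : w ≠ 1 := by
    intro h
    rw [h] at hw1
    norm_num at hw1
  have n1 : t - w * t ≠ 0 := by
    rw [show t - w * t = (1 - w) * t by ring]
    exact mul_ne_zero (sub_ne_zero.2 (Ne.symm hwn)) ht0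
  have n2 : t - w ^ 2 * t ≠ 0 := by
    rw [show t - w ^ 2 * t = (1 - w ^ 2) * t by ring]
    refine mul_ne_zero (fun h => hwn ?_) ht0
    linear_combination w * h + hw3
  have n3 : w * t - w ^ 2 * t ≠ 0 := by
    rw [show w * t - w ^ 2 * t = w * (1 - w) * t by ring]
    exact mul_ne_zero (mul_ne_zero hw0 (sub_ne_zero.2 (Ne.symm hwn))) ht0
  set m : ℝ := min ‖t - w * t‖ (min ‖t - w ^ 2 * t‖ ‖w * t - w ^ 2 * t‖) with hm
  have m0 : 0 < m := lt_min (norm_pos_iff.2 n1) (lt_min (norm_pos_iff.2 n2) (norm_pos_iff.2 n3))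
  have m1 : m ≤ ‖t - w * t‖ := min_le_left _ _
  have m2 : m ≤ ‖t - w ^ 2 * t‖ := (min_le_right _ _).trans (min_le_left _ _)
  have m3 : m ≤ ‖w * t - w ^ 2 * t‖ := (min_le_right _ _).trans (min_le_right _ _)
  have c1 : (w * t) ^ 3 = c := by rw [mul_pow, hw3, ht, one_mul]
  have c2 : (w ^ 2 * t) ^ 3 = c := by
    rw [mul_pow, ht, ← pow_mul, show 2 * 3 = 3 * 2 by norm_num, pow_mul, hw3, one_pow, one_mul]
  refine ⟨4 / m ^ 2 * ‖c‖, by positivity, fun z => ?_⟩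
  have key : ∀ τ : ℂ, ‖z - τ‖ * (m ^ 2 / 4) ≤ ‖z ^ 3 - c‖ →
      ‖z - τ‖ ≤ 4 / m ^ 2 * ‖c‖ * ‖1 - c⁻¹ * z ^ 3‖ := by
    intro τ h
    have h1 : ‖z ^ 3 - c‖ = ‖c‖ * ‖1 - c⁻¹ * z ^ 3‖ := by
      rw [← norm_mul, mul_sub, mul_one, mul_inv_cancel_left₀ hc, norm_sub_rev]
    rw [h1] at h
    rw [mul_assoc, div_mul_eq_mul_div, le_div_iff₀ (by positivity)]
    linarith
  have f1 : (z - t) * (z - w * t) * (z - w ^ 2 * t) = z ^ 3 - c := by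
    rw [← ht]
    linear_combination (-(t * z ^ 2) + t ^ 2 * z * w) * hw1 + (-t ^ 3) * hw3
  have f2 : (z - w * t) * (z - t) * (z - w ^ 2 * t) = z ^ 3 - c := by rw [← f1]; ring
  have f3 : (z - w ^ 2 * t) * (z - t) * (z - w * t) = z ^ 3 - c := by rw [← f1]; ring
  rcases le_total ‖z - t‖ ‖z - w * t‖ with h1 | h1
  · rcases le_total ‖z - t‖ ‖z - w ^ 2 * t‖ with h2 | h2
    · exact ⟨t, ht, key _ (f1 ▸ aux m0 h1 h2 m1 m2)⟩
    · exact ⟨w ^ 2 * t, c2, key _ (f3 ▸ aux m0 h2 (h2.trans h1) (by rwa [norm_sub_rev])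
        (by rwa [norm_sub_rev]))⟩
  · rcases le_total ‖z - w * t‖ ‖z - w ^ 2 * t‖ with h2 | h2
    · exact ⟨w * t, c1, key _ (f2 ▸ aux m0 h1 h2 (by rwa [norm_sub_rev]) m3)⟩
    · exact ⟨w ^ 2 * t, c2, key _ (f3 ▸ aux m0 (h2.trans h1) h2 (by rwa [norm_sub_rev])
        (by rwa [norm_sub_rev]))⟩

end Pool.Agent.K3h79.SQ

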